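import Mathlib

set_option autoImplicit false

namespace Pool.Agent.R272.Besov

open MeasureTheory
open scoped ENNReal ContDiff

/-- The `q`-th power of the Gagliardo seminorm of order `1/q` (dimensions `N = d = 1`). -/
noncomputable def gagliardo (q : ℝ) (v : ℝ → ℝ) : ℝ≥0∞ :=
  ∫⁻ x, ∫⁻ y, ENNReal.ofReal (|v x - v y| ^ q / |x - y| ^ 2)

/-- The `q`-th power of the Besov seminorm of `B^{1/q}_{q,∞}` (dimensions `N = d = 1`). -/
noncomputable def besov (q : ℝ) (u : ℝ → ℝ) : ℝ≥0∞ :=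
  ⨆ (h : ℝ) (_ : h ≠ 0), ∫⁻ x, ENNReal.ofReal (|u (x + h) - u x| ^ q / |h|)

/-- The mollification `u_ε(x) = ∫ η(z) u(x - ε z) dz`. -/
noncomputable def moll (η u : ℝ → ℝ) (ε x : ℝ) : ℝ := ∫ z, η z * u (x - ε * z)

/-- `η ∈ W^{1,1}(ℝ)`: `η` is integrable and has an integrable weak derivative. -/
def W11 (η : ℝ → ℝ) : Prop :=
  Integrable η ∧ ∃ g : ℝ → ℝ, Integrable g ∧ ∀ φ : ℝ → ℝ, ContDiff ℝ ∞ φ → HasCompactSupport φ →
    ∫ x, η x * deriv φ x = - ∫ x, g x * φ x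

end Pool.Agent.R272.Besov
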