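import Pool.Agent.R272.Besov.Fun

set_option autoImplicit false

namespace Pool.Agent.R272.Besov

open MeasureTheory Set Filter Topology
open scoped ENNReal

/-- Tail estimate. -/
theorem int_U2 {q : ℝ} (hq : 0 < q) (m : ℕ) :
    ∫⁻ x, ‖U2 m x‖ₑ ^ q ≤ ENNReal.ofReal (4 * Real.exp (-(m : ℝ))) := by
  have hpt : ∀ x, ‖U2 m x‖ₑ ^ q ≤
      ∑' k : ℕ, (Ioo ((m + k : ℕ) : ℝ) ((m + k : ℕ) + 2 * rr (m + k))).indicator 1 x := by
    intro x
    by_cases h0 : U2 m x = 0
    · rw [h0, enorm_zero, ENNReal.zero_rpow_of_pos hq]; exact zero_le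
    · have hx : ¬ x < m := by
        intro hc; apply h0; unfold U2; rw [if_pos hc]
      have hux : U2 m x = uu x := by unfold U2; rw [if_neg hx]
      have hpos : 0 < uu x := lt_of_le_of_ne (uu_nonneg x) (by rw [← hux]; exact Ne.symm h0)
      obtain ⟨h1, h2⟩ := uu_pos hpos
      push Not at hx
      have hfl : m ≤ ⌊x⌋₊ := Nat.le_floor hx
      obtain ⟨k, hk⟩ := Nat.exists_eq_add_of_le hfl
      refine le_trans ?_ (ENNReal.le_tsum k)
      rw [← hk, indicator_of_mem (show x ∈ Ioo (⌊x⌋₊ : ℝ) (⌊x⌋₊ + 2 * rr ⌊x⌋₊) from ⟨h1, h2⟩),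
        Pi.one_apply]
      have h3 : ‖U2 m x‖ₑ ≤ 1 := by
        rw [Real.enorm_eq_ofReal_abs]
        exact (ENNReal.ofReal_le_ofReal (abs_U2 m x)).trans (by simp)
      calc ‖U2 m x‖ₑ ^ q ≤ 1 ^ q := ENNReal.rpow_le_rpow h3 hq.le
        _ = 1 := ENNReal.one_rpow q
  calc ∫⁻ x, ‖U2 m x‖ₑ ^ q
      ≤ ∫⁻ x, ∑' k : ℕ, (Ioo ((m + k : ℕ) : ℝ) ((m + k : ℕ) + 2 * rr (m + k))).indicator 1 x :=
        lintegral_mono hpt
    _ = ∑' k : ℕ, ENNReal.ofReal (2 * rr (m + k)) := by
        rw [lintegral_tsum fun k => ((measurable_one).indicator measurableSet_Ioo).aemeasurable]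
        congr 1
        funext k
        rw [lintegral_indicator_one measurableSet_Ioo, Real.volume_Ioo]
        congr 1
        ring
    _ ≤ ∑' k : ℕ, ENNReal.ofReal (2 * Real.exp (-(m : ℝ)) * (Real.exp (-1)) ^ k) := by
        apply ENNReal.tsum_le_tsum
        intro k
        apply ENNReal.ofReal_le_ofReal
        have h1 := rr_le_exp (m + k)
        have h2 : Real.exp (-((m + k : ℕ) : ℝ)) = Real.exp (-(m : ℝ)) * (Real.exp (-1)) ^ k := by
          rw [← Real.exp_nat_mul, ← Real.exp_add]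
          congr 1
          push_cast
          ring
        rw [h2] at h1
        linarith
    _ = ENNReal.ofReal (∑' k : ℕ, 2 * Real.exp (-(m : ℝ)) * (Real.exp (-1)) ^ k) := by
        rw [ENNReal.ofReal_tsum_of_nonneg]
        · intro k; positivity
        · apply Summable.mul_left
          apply summable_geometric_of_lt_one (Real.exp_pos _).le
          exact Real.exp_lt_one_iff.mpr (by norm_num)
    _ ≤ ENNReal.ofReal (4 * Real.exp (-(m : ℝ))) := by
        apply ENNReal.ofReal_le_ofReal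
        rw [tsum_mul_left, tsum_geometric_of_lt_one (Real.exp_pos _).le
          (Real.exp_lt_one_iff.mpr (by norm_num))]
        have h4 : Real.exp (-1) ≤ 1 / 2 := by
          rw [Real.exp_neg]
          have : (2 : ℝ) ≤ Real.exp 1 := by
            have := Real.add_one_le_exp (1 : ℝ); linarith
          rw [inv_le_comm₀ (Real.exp_pos _) (by norm_num)]
          norm_num
          exact this
        have h5 : (1 - Real.exp (-1))⁻¹ ≤ 2 := by
          rw [inv_le_comm₀ (by linarith) (by norm_num)]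
          linarith
        have h6 : 0 < Real.exp (-(m : ℝ)) := Real.exp_pos _
        nlinarith

theorem gag_add {q : ℝ} (hq : 1 < q) {v w : ℝ → ℝ} (hv : Measurable v) (hw : Measurable w) :
    gagliardo q (fun x => v x + w x) ≤ 2 ^ (q - 1) * (gagliardo q v + gagliardo q w) := by
  have hq0 : 0 < q := by linarith
  rw [gag_eq hq0, gag_eq hq0, gag_eq hq0]
  have hm : ∀ {v : ℝ → ℝ}, Measurable v →
      Measurable fun p : ℝ × ℝ => ‖v p.1 - v p.2‖ₑ ^ q * kk (p.1 - p.2) := fun hv =>
    (((hv.comp measurable_fst).sub (hv.comp measurable_snd)).enorm.pow_const q).mul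
      (measurable_kk.comp (measurable_fst.sub measurable_snd))
  have hmx : ∀ {v : ℝ → ℝ}, Measurable v → ∀ x : ℝ,
      Measurable fun y => ‖v x - v y‖ₑ ^ q * kk (x - y) := fun hv x =>
    (hm hv).comp ((measurable_const (a := x)).prodMk measurable_id)
  rw [← lintegral_add_left (Measurable.lintegral_prod_right (hm hv)), ← lintegral_const_mul _ (by
    exact (Measurable.lintegral_prod_right (hm hv)).add (Measurable.lintegral_prod_right (hm hw)))]
  apply lintegral_mono; intro x
  simp only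
  have hsum : Measurable fun y => ‖v x - v y‖ₑ ^ q * kk (x - y) + ‖w x - w y‖ₑ ^ q * kk (x - y) :=
    (hmx hv x).add (hmx hw x)
  rw [← lintegral_add_left (hmx hv x), ← lintegral_const_mul _ hsum]
  apply lintegral_mono; intro y
  simp only
  rw [← add_mul, ← mul_assoc]
  gcongr
  calc ‖v x + w x - (v y + w y)‖ₑ ^ q = ‖(v x - v y) + (w x - w y)‖ₑ ^ q := by congr 2; ring
    _ ≤ (‖v x - v y‖ₑ + ‖w x - w y‖ₑ) ^ q := ENNReal.rpow_le_rpow (enorm_add_le _ _) hq0.le
    _ ≤ 2 ^ (q - 1) * (‖v x - v y‖ₑ ^ q + ‖w x - w y‖ₑ ^ q) :=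
        ENNReal.rpow_add_le_mul_rpow_add_rpow _ _ hq.le

theorem moll_split {η : ℝ → ℝ} (hη : Integrable η) (m : ℕ) (ε : ℝ) :
    moll η uu ε = fun x => moll η (U1 m) ε x + moll η (U2 m) ε x := by
  funext x
  unfold moll
  rw [← integral_add (integrable_moll hη (measurable_U1 m) (abs_U1 m) ε x)
    (integrable_moll hη (measurable_U2 m) (abs_U2 m) ε x)]
  apply integral_congr_ae
  refine ae_of_all _ fun z => ?_
  simp only
  rw [← U_add m]
  ring

/-- The main upper bound. -/
theorem upper {q : ℝ} (hq : 1 < q) {η : ℝ → ℝ} (h : W11 η) :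
    ∃ C : ℝ≥0∞, C ≠ ⊤ ∧ ∀ ε : ℝ, 0 < ε → ε < Real.exp (-1) →
      gagliardo q (moll η uu ε) ≤ C * ENNReal.ofReal |Real.log ε| := by
  have hq0 : 0 < q := by linarith
  obtain ⟨L, hL0, hL⟩ := translate_all h
  have hη1 := h.1
  set η' := hη1.1.mk η with hη'
  have hae : η =ᵐ[volume] η' := hη1.1.ae_eq_mk
  have hm' : Measurable η' := hη1.1.stronglyMeasurable_mk.measurable
  have hi' : Integrable η' := hη1.congr hae
  have hL' : ∀ s : ℝ, ∫⁻ x, ‖η' x - η' (x + s)‖ₑ ≤ ENNReal.ofReal (L * min 1 |s|) := by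
    intro s
    refine le_trans (le_of_eq ?_) (hL s)
    apply lintegral_congr_ae
    have hae2 : ∀ᵐ x, η (x + s) = η' (x + s) :=
      (measurePreserving_add_right volume s).quasiMeasurePreserving.ae hae
    filter_upwards [hae, hae2] with x h1 h2
    rw [h1, h2]
  have hmoll : ∀ ε, moll η uu ε = moll η' uu ε := by
    intro ε
    funext x
    unfold moll
    apply integral_congr_ae
    filter_upwards [hae] with z hz
    rw [hz]
  set A := ∫⁻ z, ‖η' z‖ₑ with hA
  have hAf : A ≠ ⊤ := hi'.2.ne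
  have hJf : J q ≠ ⊤ := (J_lt_top hq).ne
  refine ⟨2 ^ (q - 1) * (A ^ q * (12 * J q) + ENNReal.ofReal (L ^ q) * (4 * J q)), ?_, ?_⟩
  · apply ENNReal.mul_ne_top
    · exact ENNReal.rpow_ne_top_of_nonneg (by linarith) (by norm_num)
    · apply ENNReal.add_ne_top.mpr
      exact ⟨ENNReal.mul_ne_top (ENNReal.rpow_ne_top_of_nonneg hq0.le hAf)
          (ENNReal.mul_ne_top (by norm_num) hJf),
        ENNReal.mul_ne_top ENNReal.ofReal_ne_top (ENNReal.mul_ne_top (by norm_num) hJf)⟩
  · intro ε hε hε1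
    have hlog : Real.log ε < -1 := by
      rw [Real.log_lt_iff_lt_exp hε]; exact hε1
    have hlabs : |Real.log ε| = -Real.log ε := abs_of_neg (by linarith)
    set l := |Real.log ε| with hl
    have hl1 : 1 < l := by linarith
    set m := ⌈2 * l⌉₊ with hm
    have hm1 : 2 * l ≤ m := Nat.le_ceil _
    have hm2 : (m : ℝ) ≤ 3 * l := by
      have := Nat.ceil_lt_add_one (show 0 ≤ 2 * l by linarith)
      linarith
    have hexp : Real.exp (-(m : ℝ)) ≤ ε ^ 2 := by
      calc Real.exp (-(m : ℝ)) ≤ Real.exp (2 * Real.log ε) :=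
            Real.exp_le_exp.mpr (by linarith)
        _ = ε ^ 2 := by
            rw [show 2 * Real.log ε = Real.log ε + Real.log ε by ring, Real.exp_add,
              Real.exp_log hε]
            ring
    rw [hmoll, moll_split hi' m]
    refine (gag_add hq (measurable_moll hm' (measurable_U1 m) ε)
      (measurable_moll hm' (measurable_U2 m) ε)).trans ?_
    rw [mul_assoc]
    gcongr
    rw [add_mul]
    gcongr
    · -- smooth part
      calc gagliardo q (moll η' (U1 m) ε) ≤ A ^ q * gagliardo q (U1 m) :=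
            gag_moll_le hq hm' hi' (measurable_U1 m) (abs_U1 m) ε
        _ ≤ A ^ q * (4 * m * J q) := by gcongr; exact gag_U1 hq0 m
        _ ≤ A ^ q * (12 * J q) * ENNReal.ofReal l := by
            have h1 : (m : ℝ≥0∞) ≤ 3 * ENNReal.ofReal l := by
              calc (m : ℝ≥0∞) = ENNReal.ofReal (m : ℝ) := by simp
                _ ≤ ENNReal.ofReal (3 * l) := ENNReal.ofReal_le_ofReal hm2
                _ = 3 * ENNReal.ofReal l := by
                  rw [ENNReal.ofReal_mul (by norm_num)]; simp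
            calc A ^ q * (4 * m * J q) ≤ A ^ q * (4 * (3 * ENNReal.ofReal l) * J q) := by gcongr
              _ = A ^ q * (12 * J q) * ENNReal.ofReal l := by ring
    · -- rough part
      calc gagliardo q (moll η' (U2 m) ε)
          ≤ ENNReal.ofReal (L ^ q) * (∫⁻ x, ‖U2 m x‖ₑ ^ q) * (ENNReal.ofReal ε⁻¹ * J q) :=
            gag_moll_rough hq hm' hi' (measurable_U2 m) (abs_U2 m) hL0 hL' hε
        _ ≤ ENNReal.ofReal (L ^ q) * ENNReal.ofReal (4 * ε ^ 2) * (ENNReal.ofReal ε⁻¹ * J q) := by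
            gcongr
            refine (int_U2 hq0 m).trans (ENNReal.ofReal_le_ofReal ?_)
            linarith
        _ = ENNReal.ofReal (L ^ q) * (ENNReal.ofReal (4 * ε) * J q) := by
            rw [mul_assoc]
            congr 1
            rw [← mul_assoc, ← ENNReal.ofReal_mul (by positivity)]
            congr 2
            field_simp
        _ ≤ ENNReal.ofReal (L ^ q) * (4 * J q) * ENNReal.ofReal l := by
            have h1 : ENNReal.ofReal (4 * ε) ≤ 4 * ENNReal.ofReal l := by
              calc ENNReal.ofReal (4 * ε) ≤ ENNReal.ofReal (4 * l) := by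
                    apply ENNReal.ofReal_le_ofReal
                    have : Real.exp (-1) < 1 := Real.exp_lt_one_iff.mpr (by norm_num)
                    linarith
                _ = 4 * ENNReal.ofReal l := by
                    rw [ENNReal.ofReal_mul (by norm_num)]; simp
            calc ENNReal.ofReal (L ^ q) * (ENNReal.ofReal (4 * ε) * J q)
                ≤ ENNReal.ofReal (L ^ q) * ((4 * ENNReal.ofReal l) * J q) := by gcongr
              _ = ENNReal.ofReal (L ^ q) * (4 * J q) * ENNReal.ofReal l := by ring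

theorem limsup_lt {q : ℝ} (hq : 1 < q) {η : ℝ → ℝ} (h : W11 η) :
    limsup (fun ε => gagliardo q (moll η uu ε) / ENNReal.ofReal |Real.log ε|) (𝓝[>] 0) < ⊤ := by
  obtain ⟨C, hC, hb⟩ := upper hq h
  refine lt_of_le_of_lt (limsup_le_of_le (by isBoundedDefault) ?_) hC.lt_top
  have h1 : ∀ᶠ ε in 𝓝[>] (0 : ℝ), ε ∈ Ioo (0 : ℝ) (Real.exp (-1)) :=
    Ioo_mem_nhdsGT (Real.exp_pos _)
  filter_upwards [h1] with ε hε
  exact ENNReal.div_le_of_le_mul (hb ε hε.1 hε.2)

/-- Blow up of the Besov seminorm. -/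
theorem lower {q : ℝ} (hq : 0 < q) (k : ℕ) :
    ENNReal.ofReal ((1 / 2) ^ q / 2) * 2 ^ k ≤ besov q uu := by
  set h := Real.exp (-(2 : ℝ) ^ (k + 1)) with hh
  have hpos : 0 < h := Real.exp_pos _
  have hblock : ∀ n : ℕ, n ∈ Finset.Ico (2 ^ k) (2 ^ (k + 1)) → rr n = h := fun n hn =>
    rr_block (Finset.mem_Ico.mp hn).1 (Finset.mem_Ico.mp hn).2
  have hmem : 2 ^ k ∈ Finset.Ico (2 ^ k) (2 ^ (k + 1)) := by
    rw [Finset.mem_Ico]
    exact ⟨le_rfl, Nat.pow_lt_pow_right (by norm_num) (by omega)⟩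
  have hle : h ≤ 1 / 4 := by rw [← hblock _ hmem]; exact rr_le _
  set c := ENNReal.ofReal ((1 / 2) ^ q / h) with hc
  have hpt : ∀ x, ∑ n ∈ (Finset.Ico (2 ^ k) (2 ^ (k + 1)) : Finset ℕ),
      (Ioo ((n : ℝ) - h / 2) n).indicator (fun _ => c) x ≤
        ENNReal.ofReal (|uu (x + h) - uu x| ^ q / |h|) := by
    intro x
    by_cases hex : ∃ n ∈ (Finset.Ico (2 ^ k) (2 ^ (k + 1)) : Finset ℕ), x ∈ Ioo ((n : ℝ) - h / 2) n
    · obtain ⟨n, hn, hx⟩ := hex
      have huniq : ∀ j : ℕ, j ≠ n → x ∉ Ioo ((j : ℝ) - h / 2) j := by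
        intro j hj hxj
        rcases lt_or_gt_of_ne hj with hlt | hlt
        · have : (j : ℝ) + 1 ≤ n := by exact_mod_cast hlt
          linarith [hxj.2, hx.1]
        · have : (n : ℝ) + 1 ≤ j := by exact_mod_cast hlt
          linarith [hxj.1, hx.2]
      rw [Finset.sum_eq_single_of_mem n hn (fun j _ hj => indicator_of_notMem (huniq j hj) _),
        indicator_of_mem hx, hc]
      apply ENNReal.ofReal_le_ofReal
      rw [abs_of_pos hpos]
      gcongr
      have hn1 : 1 ≤ n := le_trans Nat.one_le_two_pow (Finset.mem_Ico.mp hn).1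
      have hn1' : (1 : ℝ) ≤ n := by exact_mod_cast hn1
      -- `uu x = 0`
      have hux : uu x = 0 := by
        by_contra hne
        have hp : 0 < uu x := lt_of_le_of_ne (uu_nonneg x) (Ne.symm hne)
        obtain ⟨h1, h2⟩ := uu_pos hp
        have h3 : n - 1 ≤ ⌊x⌋₊ := by
          apply Nat.le_floor
          have : ((n - 1 : ℕ) : ℝ) = (n : ℝ) - 1 := by rw [Nat.cast_sub hn1]; simp
          rw [this]
          linarith [hx.1]
        have h4 : ⌊x⌋₊ < n := by
          rw [Nat.floor_lt (by linarith [hx.1])]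
          exact hx.2
        have h5 : ⌊x⌋₊ = n - 1 := by omega
        have h6 : ((n - 1 : ℕ) : ℝ) = (n : ℝ) - 1 := by rw [Nat.cast_sub hn1]; simp
        rw [h5, h6] at h2
        have := rr_le (n - 1)
        linarith [hx.1]
      -- `uu (x+h) ≥ 1/2`
      have hux2 : 1 / 2 ≤ uu (x + h) := by
        refine le_trans ?_ (tent_le_uu n (x + h))
        unfold tent
        refine le_trans ?_ (le_max_right _ _)
        rw [hblock n hn]
        have e1 : (x + h - n) / h - 1 = (x - n) / h := by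
          field_simp
          ring
        rw [e1, abs_div, abs_of_pos hpos, abs_of_neg (by linarith [hx.2])]
        have : -(x - n) / h ≤ 1 / 2 := by
          rw [div_le_iff₀ hpos]
          linarith [hx.1]
        linarith
      rw [hux, sub_zero, abs_of_nonneg (uu_nonneg _)]
      exact hux2
    · push Not at hex
      rw [Finset.sum_eq_zero (fun n hn => indicator_of_notMem (hex n hn) _)]
      exact zero_le
  have hint : ∫⁻ x, ∑ n ∈ (Finset.Ico (2 ^ k) (2 ^ (k + 1)) : Finset ℕ),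
      (Ioo ((n : ℝ) - h / 2) n).indicator (fun _ => c) x = ENNReal.ofReal ((1 / 2) ^ q / 2) * 2 ^ k := by
    rw [lintegral_finsetSum _ (fun n _ => measurable_const.indicator measurableSet_Ioo)]
    have : ∀ n ∈ (Finset.Ico (2 ^ k) (2 ^ (k + 1)) : Finset ℕ),
        ∫⁻ x, (Ioo ((n : ℝ) - h / 2) n).indicator (fun _ => c) x =
          ENNReal.ofReal ((1 / 2) ^ q / 2) := by
      intro n _
      rw [lintegral_indicator_const measurableSet_Ioo, Real.volume_Ioo, hc,
        ← ENNReal.ofReal_mul (by positivity)]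
      congr 1
      field_simp
      ring
    rw [Finset.sum_congr rfl this, Finset.sum_const, Nat.card_Ico, nsmul_eq_mul, mul_comm]
    congr 1
    have : 2 ^ (k + 1) - 2 ^ k = 2 ^ k := by rw [pow_succ]; omega
    rw [this]
    simp
  rw [← hint]
  refine le_trans (lintegral_mono hpt) ?_
  unfold besov
  exact le_iSup₂_of_le h hpos.ne' le_rfl

theorem besov_top {q : ℝ} (hq : 0 < q) : besov q uu = ⊤ := by
  by_contra hne
  set c := ENNReal.ofReal ((1 / 2) ^ q / 2) with hc
  have hc0 : c ≠ 0 := by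
    rw [hc]
    have : (0 : ℝ) < (1 / 2) ^ q / 2 := by positivity
    exact (ENNReal.ofReal_pos.mpr this).ne'
  have hcf : c ≠ ⊤ := ENNReal.ofReal_ne_top
  have h1 : ∀ k : ℕ, (2 : ℝ≥0∞) ^ k ≤ besov q uu / c := by
    intro k
    rw [ENNReal.le_div_iff_mul_le (Or.inl hc0) (Or.inl hcf), mul_comm]
    exact lower hq k
  have h2 : besov q uu / c ≠ ⊤ := ENNReal.div_ne_top hne hc0
  obtain ⟨n, hn⟩ := ENNReal.exists_nat_gt h2
  have h3 : (n : ℝ≥0∞) ≤ 2 ^ n := by
    exact_mod_cast (Nat.lt_two_pow_self).le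
  exact absurd (h3.trans (h1 n)) (not_le.mpr hn)

theorem memLp_uu {q : ℝ} (hq : 1 < q) : MemLp uu (ENNReal.ofReal q) volume := by
  have hq0 : 0 < q := by linarith
  refine ⟨measurable_uu.aestronglyMeasurable, ?_⟩
  rw [eLpNorm_lt_top_iff_lintegral_rpow_enorm_lt_top (by simpa using hq0) ENNReal.ofReal_ne_top,
    ENNReal.toReal_ofReal hq0.le]
  have h1 : ∀ x, ‖uu x‖ₑ ^ q = ‖U2 0 x‖ₑ ^ q := by
    intro x
    congr 2
    unfold U2
    split_ifs with hx
    · by_contra hne
      have hp : 0 < uu x := lt_of_le_of_ne (uu_nonneg x) (Ne.symm hne)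
      have h3 := (uu_pos hp).1
      have : (0 : ℝ) ≤ ⌊x⌋₊ := Nat.cast_nonneg _
      simp only [Nat.cast_zero] at hx
      linarith
    · rfl
  simp_rw [h1]
  exact lt_of_le_of_lt (int_U2 hq0 0) ENNReal.ofReal_lt_top

end Pool.Agent.R272.Besov
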