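import Pool.Agent.R272.Besov.Rough

set_option autoImplicit false

namespace Pool.Agent.R272.Besov

open MeasureTheory Set
open scoped ENNReal

/-- The radii. -/
noncomputable def rr (n : ℕ) : ℝ := Real.exp (-(2 : ℝ) ^ (Nat.log 2 n + 1))

theorem rr_pos (n : ℕ) : 0 < rr n := Real.exp_pos _

theorem rr_le_exp (n : ℕ) : rr n ≤ Real.exp (-(n : ℝ)) := by
  unfold rr
  apply Real.exp_le_exp.mpr
  have h1 : n < 2 ^ (Nat.log 2 n + 1) := Nat.lt_pow_succ_log_self (by norm_num) n
  have h2 : (n : ℝ) < (2 : ℝ) ^ (Nat.log 2 n + 1) := by exact_mod_cast h1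
  linarith

theorem rr_le (n : ℕ) : rr n ≤ 1 / 4 := by
  unfold rr
  have h1 : (2 : ℝ) ≤ (2 : ℝ) ^ (Nat.log 2 n + 1) := by
    calc (2 : ℝ) = 2 ^ 1 := by norm_num
      _ ≤ 2 ^ (Nat.log 2 n + 1) := pow_le_pow_right₀ (by norm_num) (by omega)
  have h2 : Real.exp (-(2 : ℝ) ^ (Nat.log 2 n + 1)) ≤ Real.exp (-2) :=
    Real.exp_le_exp.mpr (by linarith)
  have h3 : Real.exp (-2) = (Real.exp (-1)) ^ 2 := by
    rw [← Real.exp_nat_mul]; norm_num
  have h4 : Real.exp (-1) ≤ 1 / 2 := by
    rw [Real.exp_neg]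
    have : (2 : ℝ) ≤ Real.exp 1 := by
      have := Real.add_one_le_exp (1 : ℝ); linarith
    rw [inv_le_comm₀ (Real.exp_pos _) (by norm_num)]
    norm_num
    exact this
  have h5 : 0 < Real.exp (-1) := Real.exp_pos _
  nlinarith

theorem rr_block {k n : ℕ} (h1 : 2 ^ k ≤ n) (h2 : n < 2 ^ (k + 1)) :
    rr n = Real.exp (-(2 : ℝ) ^ (k + 1)) := by
  unfold rr
  rw [Nat.log_eq_of_pow_le_of_lt_pow h1 h2]

/-- The tents. -/
noncomputable def tent (n : ℕ) (x : ℝ) : ℝ := max 0 (1 - |(x - n) / rr n - 1|)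

theorem tent_nonneg (n : ℕ) (x : ℝ) : 0 ≤ tent n x := le_max_left _ _

theorem tent_le_one (n : ℕ) (x : ℝ) : tent n x ≤ 1 :=
  max_le zero_le_one (by linarith [abs_nonneg ((x - n) / rr n - 1)])

theorem tent_pos {n : ℕ} {x : ℝ} (h : 0 < tent n x) : (n : ℝ) < x ∧ x < n + 2 * rr n := by
  unfold tent at h
  rcases lt_max_iff.mp h with h | h
  · exact absurd h (lt_irrefl 0)
  · have h1 := abs_lt.mp (by linarith : |(x - n) / rr n - 1| < 1)
    have hr := rr_pos n
    have h2 : 0 < (x - n) / rr n := by linarith [h1.1]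
    have h3 : (x - n) / rr n < 2 := by linarith [h1.2]
    constructor
    · have := (div_pos_iff_of_pos_right hr).mp h2
      linarith
    · rw [div_lt_iff₀ hr] at h3
      linarith

theorem tent_lip (n : ℕ) (x y : ℝ) : tent n x - tent n y ≤ min 1 (|x - y| / rr n) := by
  apply le_min
  · linarith [tent_le_one n x, tent_nonneg n y]
  · unfold tent
    have hr := rr_pos n
    have h1 : |(y - n) / rr n - 1| - |(x - n) / rr n - 1| ≤ |x - y| / rr n := by
      have h2 := abs_sub_abs_le_abs_sub ((y - n) / rr n - 1) ((x - n) / rr n - 1)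
      have h3 : (y - n) / rr n - 1 - ((x - n) / rr n - 1) = (y - x) / rr n := by ring
      rw [h3, abs_div, abs_of_pos hr, abs_sub_comm y x] at h2
      exact h2
    have h4 : 0 ≤ |x - y| / rr n := by positivity
    rcases le_total 0 (1 - |(x - n) / rr n - 1|) with h | h
    · rw [max_eq_right h]
      have := le_max_right 0 (1 - |(y - n) / rr n - 1|)
      linarith
    · rw [max_eq_left h]
      have := le_max_left 0 (1 - |(y - n) / rr n - 1|)
      linarith

/-- The function. -/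
noncomputable def uu (x : ℝ) : ℝ := tent ⌊x⌋₊ x

theorem uu_nonneg (x : ℝ) : 0 ≤ uu x := tent_nonneg _ _
theorem uu_le_one (x : ℝ) : uu x ≤ 1 := tent_le_one _ _

theorem tent_le_uu (n : ℕ) (x : ℝ) : tent n x ≤ uu x := by
  rcases (tent_nonneg n x).eq_or_lt with h | h
  · rw [← h]; exact uu_nonneg x
  · obtain ⟨h1, h2⟩ := tent_pos h
    have h3 := rr_le n
    have h4 : ⌊x⌋₊ = n := by
      rw [Nat.floor_eq_iff (by have : (0 : ℝ) ≤ n := Nat.cast_nonneg n; linarith)]
      exact ⟨h1.le, by linarith⟩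
    unfold uu
    rw [h4]

theorem uu_pos {x : ℝ} (h : 0 < uu x) : (⌊x⌋₊ : ℝ) < x ∧ x < ⌊x⌋₊ + 2 * rr ⌊x⌋₊ := tent_pos h

theorem measurable_tent (n : ℕ) : Measurable (tent n) := by
  unfold tent; fun_prop

theorem measurable_uu : Measurable uu := by
  have h1 : Measurable fun p : ℕ × ℝ => tent p.1 p.2 :=
    measurable_from_prod_countable_right fun n => measurable_tent n
  exact h1.comp (Nat.measurable_floor.prodMk measurable_id)

/-- Head and tail. -/
noncomputable def U1 (m : ℕ) (x : ℝ) : ℝ := if x < m then uu x else 0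
noncomputable def U2 (m : ℕ) (x : ℝ) : ℝ := if x < m then 0 else uu x

theorem U_add (m : ℕ) (x : ℝ) : U1 m x + U2 m x = uu x := by
  unfold U1 U2; split_ifs <;> simp

theorem measurable_U1 (m : ℕ) : Measurable (U1 m) :=
  Measurable.ite measurableSet_Iio measurable_uu measurable_const
theorem measurable_U2 (m : ℕ) : Measurable (U2 m) :=
  Measurable.ite measurableSet_Iio measurable_const measurable_uu

theorem abs_uu (x : ℝ) : |uu x| ≤ 1 := by rw [abs_of_nonneg (uu_nonneg x)]; exact uu_le_one x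
theorem U1_nonneg (m : ℕ) (x : ℝ) : 0 ≤ U1 m x := by
  unfold U1; split_ifs; exacts [uu_nonneg x, le_refl _]
theorem abs_U1 (m : ℕ) (x : ℝ) : |U1 m x| ≤ 1 := by
  unfold U1; split_ifs; exacts [abs_uu x, by simp]
theorem abs_U2 (m : ℕ) (x : ℝ) : |U2 m x| ≤ 1 := by
  unfold U2; split_ifs; exacts [by simp, abs_uu x]

/-- Majorant of the differences. -/
noncomputable def G (q : ℝ) (m : ℕ) (x y : ℝ) : ℝ≥0∞ :=
  ∑ n ∈ Finset.range m, (Ioo (n : ℝ) (n + 2 * rr n)).indicator 1 x *
    ENNReal.ofReal (min 1 (|x - y| / rr n) ^ q)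

theorem U1_diff {q : ℝ} (hq : 0 < q) (m : ℕ) {x y : ℝ} (h : U1 m y ≤ U1 m x) :
    ‖U1 m x - U1 m y‖ₑ ^ q ≤ G q m x y := by
  rcases (U1_nonneg m x).eq_or_lt with h0 | h0
  · have h1 : U1 m y = 0 := le_antisymm (by rw [h0]; exact h) (U1_nonneg m y)
    rw [← h0, h1, sub_zero, enorm_zero, ENNReal.zero_rpow_of_pos hq]
    exact zero_le
  · have hxm : x < m := by
      by_contra hc
      unfold U1 at h0
      rw [if_neg hc] at h0
      exact lt_irrefl 0 h0
    have hux : U1 m x = uu x := by unfold U1; rw [if_pos hxm]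
    rw [hux] at h0
    obtain ⟨h1, h2⟩ := uu_pos h0
    set n := ⌊x⌋₊ with hn
    have hnm : n < m := by exact_mod_cast h1.trans hxm
    have hty : tent n y ≤ U1 m y := by
      unfold U1
      split_ifs with hy
      · exact tent_le_uu n y
      · by_contra hc
        push Not at hc
        have h3 := (tent_pos hc).2
        have h4 := rr_le n
        have h5 : (n : ℝ) + 1 ≤ m := by exact_mod_cast hnm
        push Not at hy
        linarith
    have hd : U1 m x - U1 m y ≤ min 1 (|x - y| / rr n) := by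
      have := tent_lip n x y
      have h3 : U1 m x = tent n x := hux
      linarith
    have hterm : (Ioo (n : ℝ) (n + 2 * rr n)).indicator 1 x *
        ENNReal.ofReal (min 1 (|x - y| / rr n) ^ q) ≤ G q m x y :=
      Finset.single_le_sum (f := fun n : ℕ => (Ioo (n : ℝ) (n + 2 * rr n)).indicator 1 x *
        ENNReal.ofReal (min 1 (|x - y| / rr n) ^ q)) (fun _ _ => zero_le) (Finset.mem_range.mpr hnm)
    refine le_trans ?_ hterm
    rw [indicator_of_mem (show x ∈ Ioo (n : ℝ) (n + 2 * rr n) from ⟨h1, h2⟩), Pi.one_apply, one_mul,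
      Real.enorm_eq_ofReal_abs, ENNReal.ofReal_rpow_of_nonneg (abs_nonneg _) hq.le,
      abs_of_nonneg (sub_nonneg.mpr h)]
    apply ENNReal.ofReal_le_ofReal
    exact Real.rpow_le_rpow (sub_nonneg.mpr h) hd hq.le

theorem U1_diff' {q : ℝ} (hq : 0 < q) (m : ℕ) (x y : ℝ) :
    ‖U1 m x - U1 m y‖ₑ ^ q ≤ G q m x y + G q m y x := by
  rcases le_total (U1 m y) (U1 m x) with h | h
  · exact (U1_diff hq m h).trans le_self_add
  · have h1 : ‖U1 m x - U1 m y‖ₑ = ‖U1 m y - U1 m x‖ₑ := by
      rw [← enorm_neg, neg_sub]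
    rw [h1]
    exact (U1_diff hq m h).trans le_add_self

theorem measurable_G (q : ℝ) (m : ℕ) : Measurable fun p : ℝ × ℝ => G q m p.1 p.2 := by
  unfold G
  apply Finset.measurable_sum
  intro n _
  have h1 : Measurable fun p : ℝ × ℝ => (Ioo (n : ℝ) (n + 2 * rr n)).indicator (1 : ℝ → ℝ≥0∞) p.1 :=
    ((measurable_one).indicator measurableSet_Ioo).comp measurable_fst
  have h2 : Measurable fun p : ℝ × ℝ => ENNReal.ofReal (min 1 (|p.1 - p.2| / rr n) ^ q) := by
    fun_prop
  exact h1.mul h2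

theorem int_G {q : ℝ} (m : ℕ) :
    ∫⁻ x, ∫⁻ y, G q m x y * kk (x - y) = 2 * m * J q := by
  have h1 : ∀ x : ℝ, ∫⁻ y, G q m x y * kk (x - y) =
      ∑ n ∈ Finset.range m, (Ioo (n : ℝ) (n + 2 * rr n)).indicator 1 x *
        (ENNReal.ofReal (rr n)⁻¹ * J q) := by
    intro x
    have h2 : ∀ y, G q m x y * kk (x - y) = ∑ n ∈ Finset.range m,
        (Ioo (n : ℝ) (n + 2 * rr n)).indicator 1 x *
          ENNReal.ofReal (min 1 (|x - y| / rr n) ^ q / |x - y| ^ 2) := by
      intro y
      unfold G kk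
      rw [Finset.sum_mul]
      apply Finset.sum_congr rfl
      intro n _
      rw [mul_assoc, ← ENNReal.ofReal_mul (by have := rr_pos n; positivity)]
      congr 2
      ring
    simp_rw [h2]
    rw [lintegral_finsetSum _ (fun n _ => by fun_prop)]
    apply Finset.sum_congr rfl
    intro n _
    rw [lintegral_const_mul _ (by fun_prop)]
    congr 1
    rw [← J_scale q (rr_pos n)]
    rw [← lintegral_sub_left_eq_self (fun s => ENNReal.ofReal (min 1 (|s| / rr n) ^ q / |s| ^ 2)) x]
  simp_rw [h1]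
  rw [lintegral_finsetSum _ (fun n _ => by
    exact ((measurable_one).indicator measurableSet_Ioo).mul_const _)]
  have h3 : ∀ n ∈ Finset.range m, ∫⁻ x, (Ioo (n : ℝ) (n + 2 * rr n)).indicator (1 : ℝ → ℝ≥0∞) x *
      (ENNReal.ofReal (rr n)⁻¹ * J q) = 2 * J q := by
    intro n _
    have hr := rr_pos n
    rw [lintegral_mul_const _ ((measurable_one).indicator measurableSet_Ioo),
      lintegral_indicator_one measurableSet_Ioo, Real.volume_Ioo, ← mul_assoc,
      ← ENNReal.ofReal_mul (by linarith)]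
    congr 1
    rw [show ((n : ℝ) + 2 * rr n - n) * (rr n)⁻¹ = 2 by field_simp; ring]
    simp
  rw [Finset.sum_congr rfl h3, Finset.sum_const, Finset.card_range, nsmul_eq_mul]
  ring

theorem gag_U1 {q : ℝ} (hq : 0 < q) (m : ℕ) : gagliardo q (U1 m) ≤ 4 * m * J q := by
  rw [gag_eq hq]
  have hm1 : Measurable fun p : ℝ × ℝ => G q m p.1 p.2 * kk (p.1 - p.2) :=
    (measurable_G q m).mul (measurable_kk.comp (measurable_fst.sub measurable_snd))
  have hm2 : Measurable fun p : ℝ × ℝ => G q m p.2 p.1 * kk (p.1 - p.2) :=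
    ((measurable_G q m).comp measurable_swap).mul
      (measurable_kk.comp (measurable_fst.sub measurable_snd))
  have hk : ∀ a b : ℝ, kk (a - b) = kk (b - a) := by
    intro a b; unfold kk; rw [abs_sub_comm]
  calc ∫⁻ x, ∫⁻ y, ‖U1 m x - U1 m y‖ₑ ^ q * kk (x - y)
      ≤ ∫⁻ x, ∫⁻ y, (G q m x y * kk (x - y) + G q m y x * kk (x - y)) := by
        apply lintegral_mono; intro x
        apply lintegral_mono; intro y
        simp only
        rw [← add_mul]
        gcongr
        exact U1_diff' hq m x y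
    _ = (∫⁻ x, ∫⁻ y, G q m x y * kk (x - y)) + ∫⁻ x, ∫⁻ y, G q m y x * kk (x - y) := by
        rw [← lintegral_add_left (Measurable.lintegral_prod_right hm1)]
        apply lintegral_congr; intro x
        rw [lintegral_add_left]
        exact hm1.comp ((measurable_const (a := x)).prodMk measurable_id)
    _ = (∫⁻ x, ∫⁻ y, G q m x y * kk (x - y)) + ∫⁻ y, ∫⁻ x, G q m y x * kk (y - x) := by
        congr 1
        rw [lintegral_lintegral_swap hm2.aemeasurable]
        simp_rw [hk]
    _ = 4 * m * J q := by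
        rw [int_G, ← two_mul]
        ring

end Pool.Agent.R272.Besov
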