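import Pool.Agent.R272.Besov.Weak

set_option autoImplicit false

namespace Pool.Agent.R272.Besov

open MeasureTheory Set
open scoped ENNReal

/-- Full translation estimate. -/
theorem translate_all {η : ℝ → ℝ} (h : W11 η) : ∃ L : ℝ, 0 ≤ L ∧ ∀ s : ℝ,
    ∫⁻ x, ‖η x - η (x + s)‖ₑ ≤ ENNReal.ofReal (L * min 1 |s|) := by
  obtain ⟨C, hC, hs⟩ := translate h
  have hη := h.1
  set A := ∫⁻ x, ‖η x‖ₑ with hA
  have hAf : A ≠ ⊤ := hη.2.ne
  have h2 : ∀ s : ℝ, ∫⁻ x, ‖η x - η (x + s)‖ₑ ≤ 2 * A := by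
    intro s
    calc ∫⁻ x, ‖η x - η (x + s)‖ₑ ≤ ∫⁻ x, (‖η x‖ₑ + ‖η (x + s)‖ₑ) :=
          lintegral_mono fun x => enorm_sub_le
      _ = A + ∫⁻ x, ‖η (x + s)‖ₑ := lintegral_add_left' hη.1.enorm _
      _ = 2 * A := by
          rw [lintegral_add_right_eq_self (fun x => ‖η x‖ₑ) s, two_mul]
  have h3 : ∀ s : ℝ, ∫⁻ x, ‖η x - η (x + s)‖ₑ ≤ ENNReal.ofReal |s| * C := by
    intro s
    rcases lt_trichotomy s 0 with hneg | h0 | hpos
    · have h4 : ∫⁻ x, ‖η x - η (x + s)‖ₑ = ∫⁻ x, ENNReal.ofReal |η (x + -s) - η x| := by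
        rw [← lintegral_add_right_eq_self (fun x => ‖η x - η (x + s)‖ₑ) (-s)]
        apply lintegral_congr
        intro x
        rw [Real.enorm_eq_ofReal_abs]
        simp
      rw [h4, abs_of_neg hneg]
      exact hs _ (by linarith)
    · subst h0
      simp
    · rw [abs_of_pos hpos]
      have h4 : ∫⁻ x, ‖η x - η (x + s)‖ₑ = ∫⁻ x, ENNReal.ofReal |η (x + s) - η x| := by
        apply lintegral_congr
        intro x
        rw [Real.enorm_eq_ofReal_abs, abs_sub_comm]
      rw [h4]
      exact hs _ hpos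
  refine ⟨2 * A.toReal + C.toReal, by positivity, ?_⟩
  intro s
  rcases le_total 1 |s| with h1 | h1
  · rw [min_eq_left h1, mul_one]
    refine (h2 s).trans ?_
    rw [ENNReal.ofReal_add (by positivity) (by positivity), ENNReal.ofReal_mul (by norm_num),
      ENNReal.ofReal_toReal hAf]
    simp
  · rw [min_eq_right h1, mul_comm]
    refine (h3 s).trans ?_
    rw [ENNReal.ofReal_mul (abs_nonneg _)]
    gcongr
    rw [ENNReal.ofReal_add (by positivity) (by positivity), ENNReal.ofReal_toReal hC]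
    exact le_add_self

/-- The kernel. -/
noncomputable def kk (b : ℝ) : ℝ≥0∞ := ENNReal.ofReal (1 / |b| ^ 2)

theorem measurable_kk : Measurable kk := by unfold kk; fun_prop

theorem gag_eq {q : ℝ} (hq : 0 < q) (v : ℝ → ℝ) :
    gagliardo q v = ∫⁻ x, ∫⁻ y, ‖v x - v y‖ₑ ^ q * kk (x - y) := by
  unfold gagliardo kk
  apply lintegral_congr; intro x
  apply lintegral_congr; intro y
  rw [Real.enorm_eq_ofReal_abs, ENNReal.ofReal_rpow_of_nonneg (abs_nonneg _) hq.le,
    ← ENNReal.ofReal_mul (by positivity)]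
  congr 1
  ring

theorem measurable_moll {η U : ℝ → ℝ} (hη : Measurable η) (hU : Measurable U) (ε : ℝ) :
    Measurable (moll η U ε) := by
  have h1 : StronglyMeasurable fun p : ℝ × ℝ => η p.2 * U (p.1 - ε * p.2) := by
    apply Measurable.stronglyMeasurable
    exact (hη.comp measurable_snd).mul
      (hU.comp (measurable_fst.sub (measurable_snd.const_mul ε)))
  exact (h1.integral_prod_right (ν := volume)).measurable

theorem integrable_moll {η U : ℝ → ℝ} (hη : Integrable η) (hU : Measurable U)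
    (hb : ∀ x, |U x| ≤ 1) (ε x : ℝ) : Integrable fun z => η z * U (x - ε * z) := by
  have h1 : Measurable fun z => U (x - ε * z) :=
    hU.comp (measurable_const.sub (measurable_id.const_mul ε))
  have h2 := hη.bdd_mul (c := 1) h1.aestronglyMeasurable (ae_of_all _ fun z => by
    rw [Real.norm_eq_abs]; exact hb _)
  simpa [mul_comm] using h2

/-- E1. -/
theorem gag_moll_le {q : ℝ} (hq : 1 < q) {η U : ℝ → ℝ} (hηm : Measurable η) (hη : Integrable η)
    (hU : Measurable U) (hb : ∀ x, |U x| ≤ 1) (ε : ℝ) :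
    gagliardo q (moll η U ε) ≤ (∫⁻ z, ‖η z‖ₑ) ^ q * gagliardo q U := by
  have hq0 : 0 < q := by linarith
  rw [gag_eq hq0, gag_eq hq0]
  set A := ∫⁻ z, ‖η z‖ₑ with hA
  -- pointwise bound
  have hpt : ∀ x y : ℝ, ‖moll η U ε x - moll η U ε y‖ₑ ^ q ≤
      A ^ (q - 1) * ∫⁻ z, ‖η z‖ₑ * ‖U (x - ε * z) - U (y - ε * z)‖ₑ ^ q := by
    intro x y
    have h1 : moll η U ε x - moll η U ε y = ∫ z, η z * (U (x - ε * z) - U (y - ε * z)) := by
      unfold moll
      rw [← integral_sub (integrable_moll hη hU hb ε x) (integrable_moll hη hU hb ε y)]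
      apply integral_congr_ae
      refine ae_of_all _ fun z => ?_
      simp only
      ring
    rw [h1]
    have h2 : ‖∫ z, η z * (U (x - ε * z) - U (y - ε * z))‖ₑ ≤
        ∫⁻ z, ‖η z‖ₑ * ‖U (x - ε * z) - U (y - ε * z)‖ₑ := by
      refine (enorm_integral_le_lintegral_enorm _).trans (le_of_eq ?_)
      apply lintegral_congr
      intro z
      rw [enorm_mul]
    refine (ENNReal.rpow_le_rpow h2 hq0.le).trans ?_
    apply jensen volume hq
    · exact hηm.enorm.aemeasurable
    · exact ((hU.comp (measurable_const.sub (measurable_id.const_mul ε))).sub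
        (hU.comp (measurable_const.sub (measurable_id.const_mul ε)))).enorm.aemeasurable
  -- measurability on the triple product
  have hm3 : Measurable fun p : (ℝ × ℝ) × ℝ =>
      ‖η p.2‖ₑ * ‖U (p.1.1 - ε * p.2) - U (p.1.2 - ε * p.2)‖ₑ ^ q := by
    have a1 : Measurable fun p : (ℝ × ℝ) × ℝ => η p.2 := hηm.comp measurable_snd
    have a2 : Measurable fun p : (ℝ × ℝ) × ℝ => U (p.1.1 - ε * p.2) :=
      hU.comp ((measurable_fst.comp measurable_fst).sub (measurable_snd.const_mul ε))
    have a3 : Measurable fun p : (ℝ × ℝ) × ℝ => U (p.1.2 - ε * p.2) :=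
      hU.comp ((measurable_snd.comp measurable_fst).sub (measurable_snd.const_mul ε))
    exact a1.enorm.mul ((a2.sub a3).enorm.pow_const q)
  have hkm : Measurable fun p : ℝ × ℝ => kk (p.1 - p.2) :=
    measurable_kk.comp (measurable_fst.sub measurable_snd)
  have hm4 : Measurable fun x : (ℝ × ℝ) × ℝ => A ^ (q - 1) * (‖η x.2‖ₑ *
      (‖U (x.1.1 - ε * x.2) - U (x.1.2 - ε * x.2)‖ₑ ^ q * kk (x.1.1 - x.1.2))) := by
    have b2 : Measurable fun p : (ℝ × ℝ) × ℝ => kk (p.1.1 - p.1.2) := hkm.comp measurable_fst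
    have := (hm3.mul b2).const_mul (A ^ (q - 1))
    simpa [mul_assoc] using this
  calc ∫⁻ x, ∫⁻ y, ‖moll η U ε x - moll η U ε y‖ₑ ^ q * kk (x - y)
      ≤ ∫⁻ x, ∫⁻ y, (A ^ (q - 1) * ∫⁻ z, ‖η z‖ₑ * ‖U (x - ε * z) - U (y - ε * z)‖ₑ ^ q)
          * kk (x - y) := by
        apply lintegral_mono; intro x
        apply lintegral_mono; intro y
        simp only
        gcongr
        exact hpt x y
    _ = ∫⁻ p : ℝ × ℝ, ∫⁻ z, A ^ (q - 1) * (‖η z‖ₑ *
          (‖U (p.1 - ε * z) - U (p.2 - ε * z)‖ₑ ^ q * kk (p.1 - p.2))) ∂volume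
            ∂(volume.prod volume) := by
        rw [lintegral_prod _ ?_]
        · apply lintegral_congr; intro x
          apply lintegral_congr; intro y
          have b1 : Measurable fun z => ‖η z‖ₑ * ‖U (x - ε * z) - U (y - ε * z)‖ₑ ^ q :=
            hm3.comp ((measurable_const (a := ((x, y) : ℝ × ℝ))).prodMk measurable_id)
          rw [lintegral_const_mul _ ?_]
          · rw [mul_assoc]
            congr 1
            rw [← lintegral_mul_const _ b1]
            apply lintegral_congr; intro z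
            simp only
            ring
          · have := b1.mul_const (kk (x - y))
            simpa [mul_assoc] using this
        · apply Measurable.aemeasurable
          exact Measurable.lintegral_prod_right hm4
    _ = ∫⁻ z, ∫⁻ p : ℝ × ℝ, A ^ (q - 1) * (‖η z‖ₑ *
          (‖U (p.1 - ε * z) - U (p.2 - ε * z)‖ₑ ^ q * kk (p.1 - p.2))) ∂(volume.prod volume)
            ∂volume := by
        apply lintegral_lintegral_swap
        exact hm4.aemeasurable
    _ = ∫⁻ z, A ^ (q - 1) * (‖η z‖ₑ * ∫⁻ x, ∫⁻ y, ‖U x - U y‖ₑ ^ q * kk (x - y)) := by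
        apply lintegral_congr; intro z
        have c1 : Measurable fun p : ℝ × ℝ =>
            ‖U (p.1 - ε * z) - U (p.2 - ε * z)‖ₑ ^ q * kk (p.1 - p.2) :=
          (((hU.comp (measurable_fst.sub_const _)).sub
            (hU.comp (measurable_snd.sub_const _))).enorm.pow_const q).mul hkm
        rw [lintegral_const_mul _ (c1.const_mul _), lintegral_const_mul _ c1,
          lintegral_prod _ c1.aemeasurable]
        congr 2
        rw [← lintegral_sub_right_eq_self (fun x => ∫⁻ y, ‖U x - U y‖ₑ ^ q * kk (x - y)) (ε * z)]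
        apply lintegral_congr; intro x
        rw [← lintegral_sub_right_eq_self (fun y => ‖U (x - ε * z) - U y‖ₑ ^ q *
          kk (x - ε * z - y)) (ε * z)]
        apply lintegral_congr; intro y
        simp
    _ = A ^ q * ∫⁻ x, ∫⁻ y, ‖U x - U y‖ₑ ^ q * kk (x - y) := by
        rw [lintegral_const_mul _ (hηm.enorm.mul_const _), lintegral_mul_const _ hηm.enorm,
          ← hA, ← mul_assoc]
        congr 1
        by_cases hA0 : A = 0
        · rw [hA0, mul_zero, ENNReal.zero_rpow_of_pos hq0]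
        · have : A ^ (q - 1) * A = A ^ (q - 1) * A ^ (1 : ℝ) := by rw [ENNReal.rpow_one]
          rw [this, ← ENNReal.rpow_add _ _ hA0 hη.2.ne]
          congr 1
          ring

end Pool.Agent.R272.Besov
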