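import Pool.Agent.R272.Besov.Moll

set_option autoImplicit false

namespace Pool.Agent.R272.Besov

open MeasureTheory Set
open scoped ENNReal

theorem rpow_mul_self {A : ℝ≥0∞} (hA : A ≠ ⊤) {q : ℝ} (hq : 1 < q) : A ^ (q - 1) * A = A ^ q := by
  by_cases hA0 : A = 0
  · rw [hA0, mul_zero, ENNReal.zero_rpow_of_pos (by linarith)]
  · have : A ^ (q - 1) * A = A ^ (q - 1) * A ^ (1 : ℝ) := by rw [ENNReal.rpow_one]
    rw [this, ← ENNReal.rpow_add _ _ hA0 hA]
    congr 1
    ring

/-- E2. -/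
theorem gag_moll_rough {q : ℝ} (hq : 1 < q) {η U : ℝ → ℝ} (hηm : Measurable η)
    (hη : Integrable η) (hU : Measurable U) (hb : ∀ x, |U x| ≤ 1) {L : ℝ} (hL0 : 0 ≤ L)
    (hL : ∀ s : ℝ, ∫⁻ x, ‖η x - η (x + s)‖ₑ ≤ ENNReal.ofReal (L * min 1 |s|))
    {ε : ℝ} (hε : 0 < ε) :
    gagliardo q (moll η U ε) ≤
      ENNReal.ofReal (L ^ q) * (∫⁻ x, ‖U x‖ₑ ^ q) * (ENNReal.ofReal ε⁻¹ * J q) := by
  have hq0 : 0 < q := by linarith
  rw [gag_eq hq0]
  set v := moll η U ε with hv
  set A := ∫⁻ x, ‖U x‖ₑ ^ q with hA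
  have hvm : Measurable v := measurable_moll hηm hU ε
  -- step 1
  have s1 : ∫⁻ x, ∫⁻ y, ‖v x - v y‖ₑ ^ q * kk (x - y) =
      ∫⁻ x, ∫⁻ h, ‖v x - v (x + h)‖ₑ ^ q * kk h := by
    apply lintegral_congr; intro x
    rw [← lintegral_add_left_eq_self (fun y => ‖v x - v y‖ₑ ^ q * kk (x - y)) x]
    apply lintegral_congr; intro h
    have : kk (x - (x + h)) = kk h := by
      unfold kk
      rw [show x - (x + h) = -h by ring, abs_neg]
    rw [this]
  -- step 2
  have s2 : ∫⁻ x, ∫⁻ h, ‖v x - v (x + h)‖ₑ ^ q * kk h =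
      ∫⁻ h, ∫⁻ x, ‖v x - v (x + h)‖ₑ ^ q * kk h := by
    apply lintegral_lintegral_swap
    have : Measurable fun p : ℝ × ℝ => ‖v p.1 - v (p.1 + p.2)‖ₑ ^ q * kk p.2 :=
      (((hvm.comp measurable_fst).sub (hvm.comp (measurable_fst.add measurable_snd))).enorm.pow_const
        q).mul (measurable_kk.comp measurable_snd)
    exact this.aemeasurable
  -- step 3
  have s3 : ∀ h : ℝ, ∫⁻ x, ‖v x - v (x + h)‖ₑ ^ q ≤
      ENNReal.ofReal (L * min 1 (|h| / ε)) ^ q * A := by
    intro h
    set B := ∫⁻ z, ‖η z - η (z + h / ε)‖ₑ with hB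
    have hBle : B ≤ ENNReal.ofReal (L * min 1 (|h| / ε)) := by
      have := hL (h / ε)
      rwa [abs_div, abs_of_pos hε] at this
    have hBf : B ≠ ⊤ := ne_top_of_le_ne_top ENNReal.ofReal_ne_top hBle
    have hwm : Measurable fun z => η z - η (z + h / ε) :=
      hηm.sub (hηm.comp (measurable_id.add_const _))
    have hpt : ∀ x, ‖v x - v (x + h)‖ₑ ^ q ≤
        B ^ (q - 1) * ∫⁻ z, ‖η z - η (z + h / ε)‖ₑ * ‖U (x - ε * z)‖ₑ ^ q := by
      intro x
      have e1 : v (x + h) = ∫ z, η (z + h / ε) * U (x - ε * z) := by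
        rw [hv]
        unfold moll
        rw [← integral_add_right_eq_self (fun z => η z * U (x + h - ε * z)) (h / ε)]
        apply integral_congr_ae
        refine ae_of_all _ fun z => ?_
        simp only
        rw [show x + h - ε * (z + h / ε) = x - ε * z by field_simp; ring]
      have i2 : Integrable fun z => η (z + h / ε) * U (x - ε * z) :=
        integrable_moll (hη.comp_add_right (h / ε)) hU hb ε x
      have e2 : v x - v (x + h) = ∫ z, (η z - η (z + h / ε)) * U (x - ε * z) := by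
        rw [e1, hv]
        unfold moll
        rw [← integral_sub (integrable_moll hη hU hb ε x) i2]
        apply integral_congr_ae
        refine ae_of_all _ fun z => ?_
        simp only
        ring
      rw [e2]
      have e3 : ‖∫ z, (η z - η (z + h / ε)) * U (x - ε * z)‖ₑ ≤
          ∫⁻ z, ‖η z - η (z + h / ε)‖ₑ * ‖U (x - ε * z)‖ₑ := by
        refine (enorm_integral_le_lintegral_enorm _).trans (le_of_eq ?_)
        apply lintegral_congr
        intro z
        rw [enorm_mul]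
      refine (ENNReal.rpow_le_rpow e3 hq0.le).trans ?_
      apply jensen volume hq
      · exact hwm.enorm.aemeasurable
      · exact (hU.comp (measurable_const.sub (measurable_id.const_mul ε))).enorm.aemeasurable
    have hm2 : Measurable fun p : ℝ × ℝ => ‖η p.2 - η (p.2 + h / ε)‖ₑ * ‖U (p.1 - ε * p.2)‖ₑ ^ q :=
      (hwm.comp measurable_snd).enorm.mul
        ((hU.comp (measurable_fst.sub (measurable_snd.const_mul ε))).enorm.pow_const q)
    calc ∫⁻ x, ‖v x - v (x + h)‖ₑ ^ q
        ≤ ∫⁻ x, B ^ (q - 1) * ∫⁻ z, ‖η z - η (z + h / ε)‖ₑ * ‖U (x - ε * z)‖ₑ ^ q :=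
          lintegral_mono hpt
      _ = B ^ (q - 1) * ∫⁻ x, ∫⁻ z, ‖η z - η (z + h / ε)‖ₑ * ‖U (x - ε * z)‖ₑ ^ q :=
          lintegral_const_mul _ (Measurable.lintegral_prod_right hm2)
      _ = B ^ (q - 1) * ∫⁻ z, ∫⁻ x, ‖η z - η (z + h / ε)‖ₑ * ‖U (x - ε * z)‖ₑ ^ q := by
          rw [lintegral_lintegral_swap hm2.aemeasurable]
      _ = B ^ (q - 1) * ∫⁻ z, ‖η z - η (z + h / ε)‖ₑ * A := by
          congr 1
          apply lintegral_congr; intro z
          have hmz : Measurable fun x => ‖U (x - ε * z)‖ₑ ^ q :=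
            (hU.comp (measurable_id.sub_const _)).enorm.pow_const q
          rw [lintegral_const_mul _ hmz]
          congr 1
          exact lintegral_sub_right_eq_self (fun x => ‖U x‖ₑ ^ q) (ε * z)
      _ = B ^ q * A := by
          rw [lintegral_mul_const _ hwm.enorm, ← hB, ← mul_assoc, rpow_mul_self hBf hq]
      _ ≤ ENNReal.ofReal (L * min 1 (|h| / ε)) ^ q * A := by
          gcongr
  -- step 4
  rw [s1, s2]
  calc ∫⁻ h, ∫⁻ x, ‖v x - v (x + h)‖ₑ ^ q * kk h
      = ∫⁻ h, (∫⁻ x, ‖v x - v (x + h)‖ₑ ^ q) * kk h := by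
        apply lintegral_congr; intro h
        rw [lintegral_mul_const]
        exact (hvm.sub (hvm.comp (measurable_id.add_const h))).enorm.pow_const q
    _ ≤ ∫⁻ h, (ENNReal.ofReal (L * min 1 (|h| / ε)) ^ q * A) * kk h := by
        apply lintegral_mono; intro h
        simp only
        gcongr
        exact s3 h
    _ = ∫⁻ h, (ENNReal.ofReal (L ^ q) * A) * ENNReal.ofReal (min 1 (|h| / ε) ^ q / |h| ^ 2) := by
        apply lintegral_congr; intro h
        have hm0 : 0 ≤ min 1 (|h| / ε) := le_min zero_le_one (by positivity)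
        rw [ENNReal.ofReal_rpow_of_nonneg (by positivity) hq0.le, Real.mul_rpow hL0 hm0,
          ENNReal.ofReal_mul (by positivity)]
        unfold kk
        have : ENNReal.ofReal (min 1 (|h| / ε) ^ q / |h| ^ 2) =
            ENNReal.ofReal (min 1 (|h| / ε) ^ q) * ENNReal.ofReal (1 / |h| ^ 2) := by
          rw [← ENNReal.ofReal_mul (by positivity)]
          congr 1
          ring
        rw [this]
        ring
    _ = ENNReal.ofReal (L ^ q) * A * (ENNReal.ofReal ε⁻¹ * J q) := by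
        rw [lintegral_const_mul _ (by fun_prop), J_scale q hε]

end Pool.Agent.R272.Besov
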