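import Pool.Agent.R272.Besov.Defs

set_option autoImplicit false

namespace Pool.Agent.R272.Besov

open MeasureTheory Set
open scoped ENNReal

/-- Weighted Jensen inequality (from Hölder). -/
theorem jensen {α : Type*} [MeasurableSpace α] (ν : Measure α) {q : ℝ} (hq : 1 < q)
    {w f : α → ℝ≥0∞} (hw : AEMeasurable w ν) (hf : AEMeasurable f ν) :
    (∫⁻ a, w a * f a ∂ν) ^ q ≤ (∫⁻ a, w a ∂ν) ^ (q - 1) * ∫⁻ a, w a * f a ^ q ∂ν := by
  have hq0 : 0 < q := by linarith
  have hq1 : 0 < q - 1 := by linarith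
  set p : ℝ := q / (q - 1) with hp
  have hp0 : 0 < p := by positivity
  have hpq : p.HolderConjugate q := by
    rw [Real.holderConjugate_iff]
    refine ⟨?_, ?_⟩
    · rw [hp, lt_div_iff₀ hq1]; linarith
    · rw [hp]; field_simp; ring
  have h1 := ENNReal.lintegral_mul_le_Lp_mul_Lq ν hpq (f := fun a => w a ^ (1 / p))
    (g := fun a => w a ^ (1 / q) * f a) (hw.pow_const _) ((hw.pow_const _).mul hf)
  have hs : 1 / p + 1 / q = 1 := by
    have := hpq.inv_add_inv_eq_one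
    simpa [one_div] using this
  have h2 : ∫⁻ a, ((fun a => w a ^ (1 / p)) * fun a => w a ^ (1 / q) * f a) a ∂ν =
      ∫⁻ a, w a * f a ∂ν := by
    apply lintegral_congr
    intro a
    simp only [Pi.mul_apply]
    rw [← mul_assoc, ← ENNReal.rpow_add_of_nonneg _ _ (by positivity) (by positivity), hs,
      ENNReal.rpow_one]
  have h3 : ∫⁻ a, (fun a => w a ^ (1 / p)) a ^ p ∂ν = ∫⁻ a, w a ∂ν := by
    apply lintegral_congr
    intro a
    simp only
    rw [← ENNReal.rpow_mul, one_div, inv_mul_cancel₀ hp0.ne', ENNReal.rpow_one]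
  have h4 : ∫⁻ a, (fun a => w a ^ (1 / q) * f a) a ^ q ∂ν = ∫⁻ a, w a * f a ^ q ∂ν := by
    apply lintegral_congr
    intro a
    simp only
    rw [ENNReal.mul_rpow_of_nonneg _ _ hq0.le, ← ENNReal.rpow_mul, one_div,
      inv_mul_cancel₀ hq0.ne', ENNReal.rpow_one]
  rw [h2, h3, h4] at h1
  calc (∫⁻ a, w a * f a ∂ν) ^ q
      ≤ ((∫⁻ a, w a ∂ν) ^ (1 / p) * (∫⁻ a, w a * f a ^ q ∂ν) ^ (1 / q)) ^ q :=
        ENNReal.rpow_le_rpow h1 hq0.le
    _ = (∫⁻ a, w a ∂ν) ^ (q - 1) * ∫⁻ a, w a * f a ^ q ∂ν := by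
        rw [ENNReal.mul_rpow_of_nonneg _ _ hq0.le, ← ENNReal.rpow_mul, ← ENNReal.rpow_mul]
        congr 1
        · congr 1
          rw [hp]; field_simp
        · rw [one_div, inv_mul_cancel₀ hq0.ne', ENNReal.rpow_one]

/-- The constant `J`. -/
noncomputable def J (q : ℝ) : ℝ≥0∞ := ∫⁻ s : ℝ, ENNReal.ofReal (min 1 |s| ^ q / |s| ^ 2)

theorem J_lt_top {q : ℝ} (hq : 1 < q) : J q < ∞ := by
  have hpos : ∫⁻ s in Ioi (0 : ℝ), ENNReal.ofReal (min 1 |s| ^ q / |s| ^ 2) < ∞ := by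
    have hsplit : Ioi (0 : ℝ) = Ioc 0 1 ∪ Ioi 1 := (Ioc_union_Ioi_eq_Ioi zero_le_one).symm
    rw [hsplit]
    refine lt_of_le_of_lt (lintegral_union_le _ _ _) ?_
    apply ENNReal.add_lt_top.mpr
    constructor
    · have h1 : IntegrableOn (fun s : ℝ => s ^ (q - 2)) (Ioc 0 1) := by
        have := intervalIntegral.intervalIntegrable_rpow' (a := 0) (b := 1) (r := q - 2) (by linarith)
        rwa [intervalIntegrable_iff_integrableOn_Ioc_of_le zero_le_one] at this
      refine lt_of_le_of_lt (setLIntegral_mono_ae' measurableSet_Ioc (ae_of_all _ ?_))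
        h1.2
      intro s hs
      have hs0 : 0 < s := hs.1
      rw [abs_of_pos hs0, min_eq_right hs.2, ← Real.rpow_natCast s 2, ← Real.rpow_sub hs0]
      rw [Real.enorm_eq_ofReal (by positivity)]
      norm_num
    · have h1 : IntegrableOn (fun s : ℝ => s ^ (-2 : ℝ)) (Ioi 1) :=
        integrableOn_Ioi_rpow_of_lt (by norm_num) zero_lt_one
      refine lt_of_le_of_lt (setLIntegral_mono_ae' measurableSet_Ioi (ae_of_all _ ?_))
        h1.2
      intro s hs
      have hs1 : 1 < s := hs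
      have hs0 : 0 < s := by linarith
      rw [abs_of_pos hs0, min_eq_left hs1.le, Real.one_rpow]
      rw [Real.enorm_eq_ofReal (by positivity)]
      beta_reduce
      rw [Real.rpow_neg hs0.le]
      norm_num
  have hneg : ∫⁻ s in Iio (0 : ℝ), ENNReal.ofReal (min 1 |s| ^ q / |s| ^ 2) =
      ∫⁻ s in Ioi (0 : ℝ), ENNReal.ofReal (min 1 |s| ^ q / |s| ^ 2) := by
    have h1 := (Measure.measurePreserving_neg (volume : Measure ℝ)).setLIntegral_comp_preimage_emb
      (MeasurableEquiv.neg ℝ).measurableEmbedding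
      (fun s : ℝ => ENNReal.ofReal (min 1 |s| ^ q / |s| ^ 2)) (Ioi 0)
    simp only [abs_neg] at h1
    rw [← h1]
    congr 2
    ext s
    simp
  unfold J
  rw [← lintegral_add_compl _ (measurableSet_Ioi (a := (0 : ℝ)))]
  apply ENNReal.add_lt_top.mpr
  refine ⟨hpos, ?_⟩
  rw [compl_Ioi, ← restrict_Iio_eq_restrict_Iic]
  rw [hneg]
  exact hpos

theorem lintegral_mul_left {f : ℝ → ℝ≥0∞} (hf : Measurable f) {r : ℝ} (hr : 0 < r) :
    ∫⁻ s, f s = ENNReal.ofReal r * ∫⁻ t, f (r * t) := by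
  have h1 : ∫⁻ t, f (r * t) = ENNReal.ofReal |r⁻¹| * ∫⁻ s, f s := by
    rw [← lintegral_map (μ := volume) (g := fun t => r * t) hf (measurable_const_mul r),
      Real.map_volume_mul_left hr.ne', lintegral_smul_measure, smul_eq_mul]
  rw [h1, ← mul_assoc, ← ENNReal.ofReal_mul hr.le, abs_of_pos (inv_pos.mpr hr),
    mul_inv_cancel₀ hr.ne', ENNReal.ofReal_one, one_mul]

/-- Scaling of `J`. -/
theorem J_scale (q : ℝ) {r : ℝ} (hr : 0 < r) :
    ∫⁻ s : ℝ, ENNReal.ofReal (min 1 (|s| / r) ^ q / |s| ^ 2) = ENNReal.ofReal r⁻¹ * J q := by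
  have hm : Measurable fun s : ℝ => ENNReal.ofReal (min 1 (|s| / r) ^ q / |s| ^ 2) := by fun_prop
  rw [lintegral_mul_left hm hr]
  have h1 : ∀ t : ℝ, ENNReal.ofReal (min 1 (|r * t| / r) ^ q / |r * t| ^ 2) =
      ENNReal.ofReal ((r ^ 2)⁻¹) * ENNReal.ofReal (min 1 |t| ^ q / |t| ^ 2) := by
    intro t
    rw [← ENNReal.ofReal_mul (by positivity)]
    congr 1
    rw [abs_mul, abs_of_pos hr, mul_div_cancel_left₀ _ hr.ne', mul_pow]
    by_cases ht : t = 0
    · simp [ht]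
    · have : |t| ≠ 0 := abs_ne_zero.mpr ht
      field_simp
  simp_rw [h1]
  rw [lintegral_const_mul _ (by fun_prop), ← mul_assoc, ← ENNReal.ofReal_mul hr.le]
  congr 2
  field_simp

end Pool.Agent.R272.Besov
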