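import Pool.Agent.R272.Besov.Tool

set_option autoImplicit false

namespace Pool.Agent.R272.Besov

open MeasureTheory Set
open scoped ENNReal ContDiff

theorem hasDerivAt_Phi {φ : ℝ → ℝ} (hφ : Continuous φ) (s x : ℝ) :
    HasDerivAt (fun x => ∫ y in (x - s)..x, φ y) (φ x - φ (x - s)) x := by
  have hi : ∀ a b : ℝ, IntervalIntegrable φ volume a b := fun a b => hφ.intervalIntegrable a b
  have hP : ∀ z : ℝ, HasDerivAt (fun x => ∫ y in (0 : ℝ)..x, φ y) (φ z) z := fun z =>
    intervalIntegral.integral_hasDerivAt_right (hi 0 z)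
      (hφ.stronglyMeasurableAtFilter _ _) hφ.continuousAt
  have h1 : (fun x => ∫ y in (x - s)..x, φ y) =
      fun x => (∫ y in (0 : ℝ)..x, φ y) - ∫ y in (0 : ℝ)..(x - s), φ y := by
    funext x
    rw [intervalIntegral.integral_interval_sub_left (hi _ _) (hi _ _)]
  rw [h1]
  have h2 : HasDerivAt (fun x => ∫ y in (0 : ℝ)..(x - s), φ y) (φ (x - s)) x := by
    have h3 : HasDerivAt (fun x : ℝ => x - s) 1 x := (hasDerivAt_id x).sub_const s
    have h4 := (hP (x - s)).comp x h3
    rw [mul_one] at h4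
    exact h4
  exact (hP x).sub h2

theorem test_Phi {φ : ℝ → ℝ} (hφ : ContDiff ℝ ∞ φ) (hc : HasCompactSupport φ) {s : ℝ} (hs : 0 ≤ s) :
    ContDiff ℝ ∞ (fun x => ∫ y in (x - s)..x, φ y) ∧
      HasCompactSupport (fun x => ∫ y in (x - s)..x, φ y) := by
  constructor
  · rw [contDiff_infty_iff_deriv]
    refine ⟨fun x => (hasDerivAt_Phi hφ.continuous s x).differentiableAt, ?_⟩
    have : deriv (fun x => ∫ y in (x - s)..x, φ y) = fun x => φ x - φ (x - s) := by
      funext x
      exact (hasDerivAt_Phi hφ.continuous s x).deriv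
    rw [this]
    fun_prop
  · have hcomp : IsCompact ((fun p : ℝ × ℝ => p.1 + p.2) '' (tsupport φ ×ˢ Icc 0 s)) :=
      (IsCompact.prod hc isCompact_Icc).image (by fun_prop)
    refine HasCompactSupport.intro hcomp ?_
    intro x hx
    have h0 : ∀ y ∈ Set.uIcc (x - s) x, φ y = 0 := by
      intro y hy
      rw [Set.uIcc_of_le (by linarith)] at hy
      by_contra hne
      apply hx
      refine ⟨(y, x - y), ⟨subset_tsupport φ hne, ⟨by linarith [hy.2], by linarith [hy.1]⟩⟩, ?_⟩
      simp
    have h1 : ∫ y in (x - s)..x, φ y = ∫ y in (x - s)..x, (0 : ℝ) :=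
      intervalIntegral.integral_congr h0
    rw [h1, intervalIntegral.integral_zero]

theorem translate {η : ℝ → ℝ} (h : W11 η) : ∃ C : ℝ≥0∞, C ≠ ⊤ ∧ ∀ s : ℝ, 0 < s →
    ∫⁻ x, ENNReal.ofReal |η (x + s) - η x| ≤ ENNReal.ofReal s * C := by
  obtain ⟨hη, g₁, hg₁, hw₁⟩ := h
  -- measurable representative of the weak derivative
  obtain ⟨g, hgm, hgi, hw⟩ : ∃ g : ℝ → ℝ, StronglyMeasurable g ∧ Integrable g ∧
      ∀ φ : ℝ → ℝ, ContDiff ℝ ∞ φ → HasCompactSupport φ →
        ∫ x, η x * deriv φ x = - ∫ x, g x * φ x := by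
    refine ⟨hg₁.1.mk g₁, hg₁.1.stronglyMeasurable_mk, hg₁.congr hg₁.1.ae_eq_mk, ?_⟩
    intro φ h1 h2
    rw [hw₁ φ h1 h2]
    congr 1
    apply integral_congr_ae
    filter_upwards [hg₁.1.ae_eq_mk] with x hx
    rw [hx]
  refine ⟨∫⁻ x, ‖g x‖ₑ, hgi.2.ne, ?_⟩
  intro s hs
  set ν : Measure ℝ := volume.restrict (Ioc 0 s) with hν
  have hνu : ν univ = ENNReal.ofReal s := by
    rw [hν, Measure.restrict_apply_univ, Real.volume_Ioc, sub_zero]
  have : IsFiniteMeasure ν := ⟨by rw [hνu]; exact ENNReal.ofReal_lt_top⟩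
  set K : ℝ → ℝ := fun x => ∫ t, g (x + t) ∂ν with hK
  -- joint measurability
  have hjm : StronglyMeasurable fun p : ℝ × ℝ => g (p.1 + p.2) :=
    hgm.comp_measurable (measurable_fst.add measurable_snd)
  have hji : Integrable (fun p : ℝ × ℝ => g (p.1 + p.2)) (volume.prod ν) := by
    rw [integrable_prod_iff' hjm.aestronglyMeasurable]
    refine ⟨ae_of_all _ fun t => hgi.comp_add_right t, ?_⟩
    have : (fun t : ℝ => ∫ x, ‖g (x + t)‖) = fun _ => ∫ x, ‖g x‖ := by
      funext t
      exact integral_add_right_eq_self (fun x => ‖g x‖) t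
    rw [this]
    exact integrable_const _
  have hKi : Integrable K := hji.integral_prod_left
  -- bound of `K`
  have hKb : ∫⁻ x, ‖K x‖ₑ ≤ ENNReal.ofReal s * ∫⁻ x, ‖g x‖ₑ := by
    calc ∫⁻ x, ‖K x‖ₑ ≤ ∫⁻ x, ∫⁻ t, ‖g (x + t)‖ₑ ∂ν :=
          lintegral_mono fun x => enorm_integral_le_lintegral_enorm _
      _ = ∫⁻ t, ∫⁻ x, ‖g (x + t)‖ₑ ∂volume ∂ν :=
          lintegral_lintegral_swap hjm.enorm.aemeasurable
      _ = ∫⁻ _, ∫⁻ x, ‖g x‖ₑ ∂volume ∂ν := by
          apply lintegral_congr
          intro t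
          exact lintegral_add_right_eq_self (fun x => ‖g x‖ₑ) t
      _ = ENNReal.ofReal s * ∫⁻ x, ‖g x‖ₑ := by
          rw [lintegral_const, hνu, mul_comm]
  -- the identity
  have hzero : ∀ᵐ x, η (x + s) - η x - K x = 0 := by
    apply ae_eq_zero_of_integral_contDiff_smul_eq_zero
      (((hη.comp_add_right s).sub hη).sub hKi).locallyIntegrable
    intro φ hφ hc
    have hbd : ∃ M : ℝ, ∀ x, ‖φ x‖ ≤ M := hc.exists_bound_of_continuous hφ.continuous
    obtain ⟨M, hM⟩ := hbd
    have hmul : ∀ f : ℝ → ℝ, Integrable f → Integrable fun x => φ x * f x := fun f hf =>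
      hf.bdd_mul hφ.continuous.aestronglyMeasurable (ae_of_all _ hM)
    have hmul' : ∀ f : ℝ → ℝ, Integrable f → Integrable fun x => f x * φ x := fun f hf => by
      simpa [mul_comm] using hmul f hf
    have e1 : ∫ x, φ x * η (x + s) = ∫ x, φ (x - s) * η x := by
      rw [← integral_add_right_eq_self (fun x => φ (x - s) * η x) s]
      simp
    -- `∫ φ K = ∫ g Φ`
    have e2 : ∫ x, φ x * K x = ∫ x, g x * ∫ y in (x - s)..x, φ y := by
      have h1 : ∫ x, φ x * K x = ∫ x, ∫ t, φ x * g (x + t) ∂ν := by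
        apply integral_congr_ae
        refine ae_of_all _ fun x => ?_
        simp only [hK]
        rw [integral_const_mul]
      have hi1 : Integrable (fun p : ℝ × ℝ => φ p.1 * g (p.1 + p.2)) (volume.prod ν) :=
        hji.bdd_mul (hφ.continuous.comp continuous_fst).aestronglyMeasurable
          (ae_of_all _ fun p => hM p.1)
      have h2 : ∫ x, ∫ t, φ x * g (x + t) ∂ν = ∫ t, ∫ x, φ x * g (x + t) ∂volume ∂ν :=
        integral_integral_swap hi1
      have h3 : ∀ t : ℝ, ∫ x, φ x * g (x + t) = ∫ x, φ (x - t) * g x := by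
        intro t
        rw [← integral_add_right_eq_self (fun x => φ (x - t) * g x) t]
        simp
      have hi2 : Integrable (fun p : ℝ × ℝ => φ (p.2 - p.1) * g p.2) (ν.prod volume) := by
        have hg2 : Integrable (fun p : ℝ × ℝ => g p.2) (ν.prod volume) := by
          have := (integrable_const (1 : ℝ) (μ := ν)).mul_prod hgi
          simpa using this
        exact hg2.bdd_mul (hφ.continuous.comp (continuous_snd.sub continuous_fst)).aestronglyMeasurable
          (ae_of_all _ fun p => hM _)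
      have h4 : ∫ t, ∫ x, φ (x - t) * g x ∂volume ∂ν = ∫ x, ∫ t, φ (x - t) * g x ∂ν :=
        integral_integral_swap hi2
      rw [h1, h2]
      simp_rw [h3]
      rw [h4]
      apply integral_congr_ae
      refine ae_of_all _ fun x => ?_
      simp only
      rw [integral_mul_const, mul_comm]
      congr 1
      rw [hν, ← intervalIntegral.integral_of_le hs.le,
        intervalIntegral.integral_comp_sub_left (fun y => φ y) x]
      simp
    obtain ⟨t1, t2⟩ := test_Phi hφ hc hs.le
    have e3 := hw _ t1 t2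
    have e4 : ∀ x, deriv (fun x => ∫ y in (x - s)..x, φ y) x = φ x - φ (x - s) := fun x =>
      (hasDerivAt_Phi hφ.continuous s x).deriv
    simp_rw [e4] at e3
    have i1 : Integrable fun x => φ x * η (x + s) := hmul _ (hη.comp_add_right s)
    have i2 : Integrable fun x => φ x * η x := hmul _ hη
    have i3 : Integrable fun x => φ x * K x := hmul _ hKi
    have i4 : Integrable fun x => φ (x - s) * η x :=
      hη.bdd_mul (hφ.continuous.comp (continuous_id.sub continuous_const)).aestronglyMeasurable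
        (ae_of_all _ fun x => hM _)
    have e5 : ∫ x, φ x • (η (x + s) - η x - K x) =
        (∫ x, φ x * η (x + s)) - (∫ x, φ x * η x) - ∫ x, φ x * K x := by
      have i5 : Integrable fun x => φ x * η (x + s) - φ x * η x := i1.sub i2
      rw [← integral_sub i1 i2, ← integral_sub i5 i3]
      apply integral_congr_ae
      refine ae_of_all _ fun x => ?_
      simp only [smul_eq_mul]
      ring
    have e6 : ∫ x, η x * (φ x - φ (x - s)) = (∫ x, φ x * η x) - ∫ x, φ (x - s) * η x := by
      rw [← integral_sub i2 i4]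
      apply integral_congr_ae
      refine ae_of_all _ fun x => ?_
      simp only
      ring
    show ∫ x, φ x • (η (x + s) - η x - K x) = 0
    rw [e5, e1, e2]
    rw [e6] at e3
    linarith
  calc ∫⁻ x, ENNReal.ofReal |η (x + s) - η x| = ∫⁻ x, ‖K x‖ₑ := by
        apply lintegral_congr_ae
        filter_upwards [hzero] with x hx
        have : η (x + s) - η x = K x := by linarith
        rw [this, Real.enorm_eq_ofReal_abs]
    _ ≤ _ := hKb

end Pool.Agent.R272.Besov
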